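import Pool.Agent.Helper88_SO.Tools

/-!
# The graph of a betweenness instance by a table (module KPOLY, part 1)
-/

namespace Pool.Agent.SO.H82

/-- types of vertices -/
inductive Ty : Type
  | top | hel | jam (s : Bool) | hj (s : Bool) | pr (k : Fin 5) | hc (k : Fin 5) | hd (s : Bool)
  | ho (s t : Bool)
  deriving DecidableEq

/-- conditions on two indices -/
inductive Cd : Type
  | ff | tt | eq | ne | lt | gt | le | ge | lk (k : Fin 5) | kl (k : Fin 5)

/-- meaning of the conditions; `L k j i` says that the `k`-th top vertex of the door `j` is `i` -/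
def Cd.sem (L : Fin 5 → ℕ → ℕ → Prop) (a b : ℕ) : Cd → Prop
  | .ff => False
  | .tt => True
  | .eq => a = b
  | .ne => a ≠ b
  | .lt => a < b
  | .gt => b < a
  | .le => a ≤ b
  | .ge => b ≤ a
  | .lk k => L k a b
  | .kl k => L k b a

/-- table of adjacencies, upper part -/
def cd0 : Ty → Ty → Cd
  | .top, .top => .ne
  | .top, .hel => .ne
  | .top, .jam _ => .tt
  | .top, .hj _ => .tt
  | .top, .pr k => .kl k
  | .hel, .jam _ => .tt
  | .jam s, .jam s' => if s = s' then .ne else .tt
  | .jam s, .hj false => if s = true then .ge else .gt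
  | .jam s, .hj true => if s = false then .eq else .ff
  | .jam _, .pr _ => .eq
  | .jam _, .hc _ => .eq
  | .jam s, .hd s' => if s = s' then .ff else .eq
  | .jam s, .ho s' _ => if s = s' then .eq else .ff
  | .pr k, .pr k' => if k = k' then .ff else .eq
  | .pr k, .hc k' => if k = k' then .ff else .eq
  | .pr _, .hd _ => .eq
  | .pr k, .ho _ t => if k = 1 ∨ k = (if t then 2 else 0) then .eq else .ff
  | _, _ => .ff

/-- table of adjacencies -/
def cd : Ty → Ty → Cd
  | .hel, .top => .ne
  | .jam _, .top => .tt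
  | .hj _, .top => .tt
  | .pr k, .top => .lk k
  | .jam _, .hel => .tt
  | .hj false, .jam s => if s = true then .le else .lt
  | .hj true, .jam s => if s = false then .eq else .ff
  | .pr _, .jam _ => .eq
  | .hc _, .jam _ => .eq
  | .hd s', .jam s => if s = s' then .ff else .eq
  | .ho s' _, .jam s => if s = s' then .eq else .ff
  | .hc k', .pr k => if k = k' then .ff else .eq
  | .hd _, .pr _ => .eq
  | .ho _ t, .pr k => if k = 1 ∨ k = (if t then 2 else 0) then .eq else .ff
  | x, y => cd0 x y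

/-- type of a vertex -/
def ty {n m : ℕ} : Vx n m → Ty
  | .top _ => .top
  | .hel _ => .hel
  | .jam _ s => .jam s
  | .hj _ s => .hj s
  | .pr _ k => .pr k
  | .hc _ k => .hc k
  | .hd _ s => .hd s
  | .ho _ s t => .ho s t

/-- index of a vertex -/
def ix {n m : ℕ} : Vx n m → ℕ
  | .top i => i
  | .hel i => i
  | .jam j _ => j
  | .hj j _ => j
  | .pr j _ => j
  | .hc j _ => j
  | .hd j _ => j
  | .ho j _ _ => j

/-- lookup -/
def Lk {n m : ℕ} (T : Fin m → Fin 3 → Fin n) (k : Fin 5) (j i : ℕ) : Prop :=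
  ∃ h : j < m, (el T ⟨j, h⟩ k).val = i

theorem Lk_iff {n m : ℕ} (T : Fin m → Fin 3 → Fin n) (k : Fin 5) (j : Fin m) (i : Fin (n + 2)) :
    Lk T k j i ↔ el T j k = i := by
  constructor
  · rintro ⟨h, h2⟩
    exact Fin.ext h2
  · intro h
    exact ⟨j.isLt, by rw [← h]⟩

theorem adj_iff_sem {n m : ℕ} (T : Fin m → Fin 3 → Fin n) (x y : Vx n m) :
    (Gr T).Adj x y ↔ (cd (ty x) (ty y)).sem (Lk T) (ix x) (ix y) := by
  show (x ≠ y ∧ (adj0 T x y ∨ adj0 T y x)) ↔ _
  cases x with
  | top i =>
    cases y <;> simp [adj0, ty, ix, cd, cd0, Cd.sem, Lk_iff, Fin.ext_iff, eq_comm]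
  | hel i =>
    cases y <;> simp [adj0, ty, ix, cd, cd0, Cd.sem, Lk_iff, Fin.ext_iff, eq_comm]
  | jam j s =>
    cases y with
    | top i => simp [adj0, ty, ix, cd, cd0, Cd.sem]
    | hel i => simp [adj0, ty, ix, cd, cd0, Cd.sem]
    | jam j' s' =>
      cases s <;> cases s' <;> simp [adj0, ty, ix, cd, cd0, Cd.sem, Fin.ext_iff, eq_comm]
    | hj j' s' =>
      cases s <;> cases s' <;> simp [adj0, ty, ix, cd, cd0, Cd.sem, Fin.ext_iff, eq_comm] <;> grind
    | pr j' k => simp [adj0, ty, ix, cd, cd0, Cd.sem, Fin.ext_iff, eq_comm]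
    | hc j' k => simp [adj0, ty, ix, cd, cd0, Cd.sem, Fin.ext_iff, eq_comm]
    | hd j' s' =>
      cases s <;> cases s' <;> simp [adj0, ty, ix, cd, cd0, Cd.sem, Fin.ext_iff, eq_comm]
    | ho j' s' t =>
      cases s <;> cases s' <;> simp [adj0, ty, ix, cd, cd0, Cd.sem, Fin.ext_iff, eq_comm]
  | hj j s =>
    cases s <;> cases y with
    | top i => simp [adj0, ty, ix, cd, cd0, Cd.sem]
    | jam j' s' =>
      cases s' <;> simp [adj0, ty, ix, cd, cd0, Cd.sem, Fin.ext_iff, eq_comm] <;> grind
    | _ => simp [adj0, ty, ix, cd, cd0, Cd.sem]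
  | pr j k =>
    cases y with
    | top i => simp [adj0, ty, ix, cd, cd0, Cd.sem, Lk_iff]
    | hel i => simp [adj0, ty, ix, cd, cd0, Cd.sem]
    | jam j' s' => simp [adj0, ty, ix, cd, cd0, Cd.sem, Fin.ext_iff, eq_comm]
    | hj j' s' => simp [adj0, ty, ix, cd, cd0, Cd.sem, Fin.ext_iff, eq_comm]
    | pr j' k' =>
      by_cases h : k = k' <;> simp [adj0, ty, ix, cd, cd0, Cd.sem, Fin.ext_iff, eq_comm, h]
    | hc j' k' =>
      by_cases h : k = k' <;> simp [adj0, ty, ix, cd, cd0, Cd.sem, Fin.ext_iff, eq_comm, h]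
    | hd j' s' =>
      simp [adj0, ty, ix, cd, cd0, Cd.sem, Fin.ext_iff, eq_comm]
    | ho j' s' t =>
      by_cases h : k = 1 ∨ k = (if t then 2 else 0)
      · have e : cd (.pr k) (.ho s' t) = .eq := if_pos h
        simp only [ty, e, Cd.sem, ix]
        constructor
        · rintro ⟨-, h1 | h1⟩
          · exact h1.elim
          · exact congrArg Fin.val h1.1.symm
        · intro h1
          exact ⟨by simp, Or.inr ⟨(Fin.ext h1).symm, h⟩⟩
      · have e : cd (.pr k) (.ho s' t) = .ff := if_neg h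
        simp only [ty, e, Cd.sem, iff_false]
        rintro ⟨-, h1 | h1⟩
        · exact h1.elim
        · exact h h1.2
  | hc j k =>
    cases y with
    | top i => simp [adj0, ty, ix, cd, cd0, Cd.sem]
    | hel i => simp [adj0, ty, ix, cd, cd0, Cd.sem]
    | jam j' s' => simp [adj0, ty, ix, cd, cd0, Cd.sem, Fin.ext_iff, eq_comm]
    | hj j' s' => simp [adj0, ty, ix, cd, cd0, Cd.sem]
    | pr j' k' =>
      by_cases h : k = k' <;> simp [adj0, ty, ix, cd, cd0, Cd.sem, Fin.ext_iff, eq_comm, h]
    | hc j' k' => simp [adj0, ty, ix, cd, cd0, Cd.sem]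
    | hd j' s' => simp [adj0, ty, ix, cd, cd0, Cd.sem]
    | ho j' s' t => simp [adj0, ty, ix, cd, cd0, Cd.sem]
  | hd j s =>
    cases y with
    | top i => simp [adj0, ty, ix, cd, cd0, Cd.sem]
    | hel i => simp [adj0, ty, ix, cd, cd0, Cd.sem]
    | jam j' s' =>
      cases s <;> cases s' <;> simp [adj0, ty, ix, cd, cd0, Cd.sem, Fin.ext_iff, eq_comm]
    | hj j' s' => simp [adj0, ty, ix, cd, cd0, Cd.sem]
    | pr j' k' => simp [adj0, ty, ix, cd, cd0, Cd.sem, Fin.ext_iff, eq_comm]
    | hc j' k' => simp [adj0, ty, ix, cd, cd0, Cd.sem]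
    | hd j' s' => simp [adj0, ty, ix, cd, cd0, Cd.sem]
    | ho j' s' t => simp [adj0, ty, ix, cd, cd0, Cd.sem]
  | ho j s t =>
    cases y with
    | top i => simp [adj0, ty, ix, cd, cd0, Cd.sem]
    | hel i => simp [adj0, ty, ix, cd, cd0, Cd.sem]
    | jam j' s' =>
      cases s <;> cases s' <;> simp [adj0, ty, ix, cd, cd0, Cd.sem, Fin.ext_iff, eq_comm]
    | hj j' s' => simp [adj0, ty, ix, cd, cd0, Cd.sem]
    | pr j' k =>
      by_cases h : k = 1 ∨ k = (if t then 2 else 0)
      · have e : cd (.ho s t) (.pr k) = .eq := if_pos h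
        simp only [ty, e, Cd.sem, ix]
        constructor
        · rintro ⟨-, h1 | h1⟩
          · exact congrArg Fin.val h1.1
          · exact h1.elim
        · intro h1
          exact ⟨by simp, Or.inl ⟨Fin.ext h1, h⟩⟩
      · have e : cd (.ho s t) (.pr k) = .ff := if_neg h
        simp only [ty, e, Cd.sem, iff_false]
        rintro ⟨-, h1 | h1⟩
        · exact h h1.2
        · exact h1.elim
    | hc j' k' => simp [adj0, ty, ix, cd, cd0, Cd.sem]
    | hd j' s' => simp [adj0, ty, ix, cd, cd0, Cd.sem]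
    | ho j' s' t' => simp [adj0, ty, ix, cd, cd0, Cd.sem]

/-! ## The list of all vertices -/

/-- number of vertices of a type -/
def sz (n m : ℕ) : Ty → ℕ
  | .top => n + 2
  | .hel => n + 2
  | _ => m

/-- all types -/
def tys : List Ty :=
  [.top, .hel, .jam false, .jam true, .hj false, .hj true, .pr 0, .pr 1, .pr 2, .pr 3, .pr 4,
    .hc 0, .hc 1, .hc 2, .hc 3, .hc 4, .hd false, .hd true, .ho false false, .ho false true,
    .ho true false, .ho true true]

/-- the vertex with given type and index -/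
def mk {n m : ℕ} : (t : Ty) → Fin (sz n m t) → Vx n m
  | .top, i => .top i
  | .hel, i => .hel i
  | .jam s, j => .jam j s
  | .hj s, j => .hj j s
  | .pr k, j => .pr j k
  | .hc k, j => .hc j k
  | .hd s, j => .hd j s
  | .ho s t, j => .ho j s t

theorem ty_mk {n m : ℕ} (t : Ty) (i : Fin (sz n m t)) : ty (mk t i) = t := by
  cases t <;> rfl

theorem ix_mk {n m : ℕ} (t : Ty) (i : Fin (sz n m t)) : ix (mk t i) = i := by
  cases t <;> rfl

/-- all vertices -/
def verts (n m : ℕ) : List (Vx n m) := tys.flatMap (fun t => (List.finRange (sz n m t)).map (mk t))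

theorem mem_verts {n m : ℕ} (x : Vx n m) : x ∈ verts n m := by
  unfold verts
  rw [List.mem_flatMap]
  have h : ∀ t : Ty, t ∈ tys := by
    intro t
    cases t with
    | top => decide
    | hel => decide
    | jam s => revert s; decide
    | hj s => revert s; decide
    | pr k => revert k; decide
    | hc k => revert k; decide
    | hd s => revert s; decide
    | ho s t => revert s t; decide
  refine ⟨ty x, h _, ?_⟩
  rw [List.mem_map]
  cases x with
  | top i => exact ⟨i, List.mem_finRange _, rfl⟩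
  | hel i => exact ⟨i, List.mem_finRange _, rfl⟩
  | jam j s => exact ⟨j, List.mem_finRange _, rfl⟩
  | hj j s => exact ⟨j, List.mem_finRange _, rfl⟩
  | pr j k => exact ⟨j, List.mem_finRange _, rfl⟩
  | hc j k => exact ⟨j, List.mem_finRange _, rfl⟩
  | hd j s => exact ⟨j, List.mem_finRange _, rfl⟩
  | ho j s t => exact ⟨j, List.mem_finRange _, rfl⟩

theorem nodup_verts (n m : ℕ) : (verts n m).Nodup := by
  unfold verts
  rw [List.nodup_flatMap]
  constructor
  · intro t _
    refine (List.nodup_finRange _).map ?_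
    intro i j h
    have := congrArg ix h
    rw [ix_mk, ix_mk] at this
    exact Fin.ext this
  · have h : tys.Nodup := by decide
    refine h.imp ?_
    intro t t' hne
    rw [Function.onFun, List.disjoint_left]
    intro x hx hx'
    rw [List.mem_map] at hx hx'
    obtain ⟨i, -, rfl⟩ := hx
    obtain ⟨j, -, h⟩ := hx'
    apply hne
    rw [← ty_mk t i, ← h, ty_mk]

/-- all vertices of the two copies -/
def verts2 (n m : ℕ) : List (Vx n m ⊕ Vx n m) :=
  (verts n m).map Sum.inl ++ (verts n m).map Sum.inr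

theorem mem_verts2 {n m : ℕ} (x : Vx n m ⊕ Vx n m) : x ∈ verts2 n m := by
  unfold verts2
  rw [List.mem_append, List.mem_map, List.mem_map]
  rcases x with x | x
  · exact Or.inl ⟨x, mem_verts x, rfl⟩
  · exact Or.inr ⟨x, mem_verts x, rfl⟩

theorem nodup_verts2 (n m : ℕ) : (verts2 n m).Nodup := by
  unfold verts2
  rw [List.nodup_append]
  refine ⟨(nodup_verts n m).map Sum.inl_injective, (nodup_verts n m).map Sum.inr_injective, ?_⟩
  intro a ha b hb h
  rw [List.mem_map] at ha hb
  obtain ⟨a', -, rfl⟩ := ha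
  obtain ⟨b', -, rfl⟩ := hb
  simp at h

/-- the graph of the instance on an initial segment of the natural numbers -/
def grF {n m : ℕ} (T : Fin m → Fin 3 → Fin n) : Σ N : ℕ, SimpleGraph (Fin N) :=
  ⟨(verts2 n m).length, (Gr T ⊕g Gr T).comap (verts2 n m).get⟩

theorem grF_iso {n m : ℕ} (T : Fin m → Fin 3 → Fin n) :
    Nonempty ((grF T).2 ≃g (Gr T ⊕g Gr T)) := by
  classical
  exact ⟨SimpleGraph.Iso.comap ((nodup_verts2 n m).getEquivOfForallMemList _ mem_verts2) _⟩

open Classical in
theorem encGraph_grF {n m : ℕ} (T : Fin m → Fin 3 → Fin n) :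
    encGraph (grF T) = (verts2 n m).flatMap (fun x => .row :: (verts2 n m).map (fun y =>
      if (Gr T ⊕g Gr T).Adj x y then .one else .zero)) := by
  have h : (List.finRange (verts2 n m).length).map (verts2 n m).get = verts2 n m :=
    List.map_get_finRange _
  unfold encGraph grF
  simp only
  conv_rhs => rw [← h, List.flatMap_map]
  refine List.flatMap_congr (fun i _ => ?_)
  rw [List.map_map]
  rfl

end Pool.Agent.SO.H82
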