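import Pool.Agent.Helper53_Chan.Columns
import Pool.Agent.Helper82_SO.Table

/-!
# The reduction is computable in polynomial time (module KPOLY, part 2)
-/

namespace Pool.Agent.SO.H82

open Pool.Agent.Helper53_CookLevin Pool.Agent.Helper53_Chan Turing
open Pool.Agent.Common_CookLevin (encodeCNF CNF CNFLetter)
open Pool.Agent.Helper32_Poly

/-! ## The word of the triples -/

/-- word of a triple -/
def encT (t : ℕ × ℕ × ℕ) : List A :=
  List.replicate t.1 .tick ++ .e0 :: (List.replicate t.2.1 .tick ++ .e1 ::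
    (List.replicate t.2.2 .tick ++ [.e2]))

/-- word of a list of triples -/
def encTs (ts : List (ℕ × ℕ × ℕ)) : List A := ts.flatMap encT

theorem encTs_nil : encTs [] = [] := rfl

theorem encTs_cons (t : ℕ × ℕ × ℕ) (ts : List (ℕ × ℕ × ℕ)) : encTs (t :: ts) = encT t ++ encTs ts := by
  simp [encTs]

theorem encTs_append (ts ss : List (ℕ × ℕ × ℕ)) : encTs (ts ++ ss) = encTs ts ++ encTs ss := by
  simp [encTs]

theorem encTs_flatMap {α : Type} (l : List α) (f : α → List (ℕ × ℕ × ℕ)) :
    encTs (l.flatMap f) = l.flatMap (fun a => encTs (f a)) := by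
  induction l with
  | nil => rfl
  | cons a l ih => rw [List.flatMap_cons, encTs_append, ih, List.flatMap_cons]

/-- generators for lists of triples -/
def TGen (m : ℕ) (g : (Fin m → ℕ) → List (ℕ × ℕ × ℕ)) : Prop := LGen m (fun x => encTs (g x))

theorem TGen.nil {m : ℕ} : TGen m (fun _ => []) := LGen.const []

theorem TGen.append {m : ℕ} {g h : (Fin m → ℕ) → List (ℕ × ℕ × ℕ)} (hg : TGen m g)
    (hh : TGen m h) : TGen m (fun x => g x ++ h x) :=
  LGen.congr (LGen.append hg hh) (fun x => by rw [encTs_append])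

theorem TGen.cons {m : ℕ} {a b c : (Fin m → ℕ) → ℕ} {g : (Fin m → ℕ) → List (ℕ × ℕ × ℕ)}
    (ha : NumA m a) (hb : NumA m b) (hc : NumA m c) (hg : TGen m g) :
    TGen m (fun x => (a x, b x, c x) :: g x) :=
  LGen.congr (LGen.append (LGen.append (ha .tick) (LGen.append (LGen.const [A.e0])
    (LGen.append (hb .tick) (LGen.append (LGen.const [A.e1]) (LGen.append (hc .tick)
      (LGen.const [A.e2])))))) hg) (fun x => by rw [encTs_cons]; rfl)

theorem gen_letterT {m : ℕ} {M p k : (Fin m → ℕ) → ℕ} (hM : NumA m M) (hp : NumA m p)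
    (hk : NumA m k) (c : CNFLetter) : TGen m (fun x => letterT (M x) (p x) (k x) c) := by
  have hc : ∀ c, NumA m (fun _ => c) := NumA.const
  have a0 : NumA m (fun x => 3 * M x + 2) := NumA.add (NumA.mul (hc 3) hM) (hc 2)
  have a1 : NumA m (fun x => 2 * M x + p x) := NumA.add (NumA.mul (hc 2) hM) hp
  have a2 : NumA m (fun x => 2 * M x + p x + 1) := NumA.add a1 (hc 1)
  have a3 : NumA m (fun x => 5 * M x + 4 + p x) :=
    NumA.add (NumA.add (NumA.mul (hc 5) hM) (hc 4)) hp
  have a4 : NumA m (fun x => M x + k x) := NumA.add hM hk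
  have a5 : NumA m (fun x => 3 * M x + 1) := NumA.add (NumA.mul (hc 3) hM) (hc 1)
  cases c with
  | tick => exact TGen.cons a0 a1 a2 (TGen.cons a0 a1 a2 TGen.nil)
  | pos => exact TGen.cons hk a3 a2 (TGen.cons a0 a1 a3 TGen.nil)
  | neg => exact TGen.cons a4 a3 a2 (TGen.cons a0 a1 a3 TGen.nil)
  | clause => exact TGen.cons a0 a1 a5 (TGen.cons a0 a5 a2 TGen.nil)

/-- the word of the triples of a letter, for the working alphabet -/
def bodyT (M p k : ℕ) : A → List A
  | .tick => encTs (letterT M p k .tick)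
  | .pos => encTs (letterT M p k .pos)
  | .neg => encTs (letterT M p k .neg)
  | .clause => encTs (letterT M p k .clause)
  | _ => []

theorem gen_bodyT {m : ℕ} {M p k : (Fin m → ℕ) → ℕ} (hM : NumA m M) (hp : NumA m p)
    (hk : NumA m k) (c : A) : LGen m (fun x => bodyT (M x) (p x) (k x) c) := by
  cases c with
  | tick => exact gen_letterT hM hp hk .tick
  | pos => exact gen_letterT hM hp hk .pos
  | neg => exact gen_letterT hM hp hk .neg
  | clause => exact gen_letterT hM hp hk .clause
  | e0 => exact LGen.const []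
  | e1 => exact LGen.const []
  | e2 => exact LGen.const []
  | width => exact LGen.const []
  | net => exact LGen.const []
  | upper => exact LGen.const []
  | lower => exact LGen.const []

/-- the word of the triples of the letters of a word `u` -/
def lettersT (u : List A) : List A :=
  scan (fun q c => bodyT u.length q.length (tr A.tick q) c) [] u

theorem gen_lettersT {m : ℕ} {F : (Fin m → List A) → List A} (hF : PGen m F) :
    PGen m (fun ρ => lettersT (F ρ)) := by
  have h3 : ∀ c, PGen (m + 3) (fun ρ : Fin (m + 3) → List A =>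
      bodyT (ρ 2).length (ρ 1).length (ρ 0).length c) := fun c =>
    gen_bodyT (m := m + 3) (NumA.var 2) (NumA.var 1) (NumA.var 0) c
  have h2 : ∀ c, PGen (m + 2) (fun ρ : Fin (m + 2) → List A =>
      bodyT (ρ 1).length (ρ 0).length (tr A.tick (ρ 0)) c) := fun c =>
    PGen.congr (PGen.letG (PGen.tr A.tick A.tick (PGen.var (0 : Fin (m + 2))))
      (K := fun k ρ => bodyT (ρ 1).length (ρ 0).length k.length c) (h3 c)) (fun ρ => by
        rw [List.length_replicate])
  have h1 : PGen (m + 1) (fun ρ : Fin (m + 1) → List A => lettersT (ρ 0)) :=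
    PGen.loopG (PGen.var 0) (K := fun c q ρ =>
      bodyT (ρ 0).length q.length (tr A.tick q) c) (fun c => h2 c)
  exact PGen.letG hF (K := fun w _ => lettersT w) h1

theorem scan_wordT (M : ℕ) : ∀ (u q : List CNFLetter),
    scan (fun q c => bodyT M q.length (tr A.tick q) c) (q.map inj) (u.map inj) =
      encTs (wordT M q.length (tr (.tick : CNFLetter) q) u)
  | [], q => rfl
  | c :: u, q => by
    rw [List.map_cons, scan, wordT, encTs_append]
    have h := scan_wordT M u (q ++ [c])
    rw [tr_snoc, List.length_append, List.length_singleton, List.map_append, List.map_cons,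
      List.map_nil] at h
    rw [h, tr_map_inj, List.length_map]
    congr 1
    cases c <;> rfl

/-- the word of all triples for the reversed formula `u` -/
def trW (u : List A) : List A :=
  encTs ((List.range (3 * u.length + 2)).flatMap (fun e => [(3 * u.length + 2, e, 3 * u.length + 3)])) ++
  (encTs [(3 * u.length + 2, 3 * u.length + 1, 2 * u.length)] ++
  (encTs ((List.range u.length).flatMap (fun v =>
        [(v, 3 * u.length + 4 + v, u.length + v),
          (3 * u.length + 2, 3 * u.length + 4 + v, 3 * u.length + 1),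
          (v, 4 * u.length + 4 + v, u.length + v),
          (3 * u.length + 2, 3 * u.length + 1, 4 * u.length + 4 + v)])) ++ lettersT u))

theorem trW_map (u : List CNFLetter) : trW (u.map inj) = encTs (triples u) := by
  have h := scan_wordT u.length u []
  unfold trW triples lettersT
  rw [List.map_nil, List.length_nil] at h
  simp only [List.length_map]
  rw [h]
  simp only [List.map_eq_flatMap, encTs_append, encTs_cons, encTs_nil, List.append_nil,
    List.append_assoc]
  rfl

theorem gen_trW {m : ℕ} {F : (Fin m → List A) → List A} (hF : PGen m F) :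
    PGen m (fun ρ => trW (F ρ)) := by
  have hM : NumA (m + 1) (fun a => a 0) := NumA.var 0
  have hM' : NumA (m + 2) (fun a => a 1) := NumA.var 1
  have hv' : NumA (m + 2) (fun a => a 0) := NumA.var 0
  have hc : ∀ {m} c, NumA m (fun _ => c) := fun c => NumA.const c
  have lin : ∀ {m} {e : (Fin m → ℕ) → ℕ} (_ : NumA m e) (a b : ℕ), NumA m (fun x => a * e x + b) :=
    fun h a b => NumA.add (NumA.mul (hc a) h) (hc b)
  have g1 : TGen (m + 1) (fun a => (List.range (3 * a 0 + 2)).flatMap
      (fun e => [(3 * a 0 + 2, e, 3 * a 0 + 3)])) := by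
    refine LGen.congr (LGen.loopR (lin hM 3 2) (K := fun e a => encTs [(3 * a 0 + 2, e, 3 * a 0 + 3)])
      (TGen.cons (lin hM' 3 2) (NumA.var 0) (lin hM' 3 3) TGen.nil)) (fun a => ?_)
    rw [encTs_flatMap]
  have g2 : TGen (m + 1) (fun a => [(3 * a 0 + 2, 3 * a 0 + 1, 2 * a 0)]) :=
    TGen.cons (lin hM 3 2) (lin hM 3 1) (NumA.mul (hc 2) hM) TGen.nil
  have g3 : TGen (m + 1) (fun a => (List.range (a 0)).flatMap (fun v =>
        [(v, 3 * a 0 + 4 + v, a 0 + v),
          (3 * a 0 + 2, 3 * a 0 + 4 + v, 3 * a 0 + 1),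
          (v, 4 * a 0 + 4 + v, a 0 + v),
          (3 * a 0 + 2, 3 * a 0 + 1, 4 * a 0 + 4 + v)])) := by
    refine LGen.congr (LGen.loopR hM (K := fun v a => encTs [(v, 3 * a 0 + 4 + v, a 0 + v),
          (3 * a 0 + 2, 3 * a 0 + 4 + v, 3 * a 0 + 1),
          (v, 4 * a 0 + 4 + v, a 0 + v),
          (3 * a 0 + 2, 3 * a 0 + 1, 4 * a 0 + 4 + v)]) ?_) (fun a => ?_)
    · exact TGen.cons hv' (NumA.add (lin hM' 3 4) hv') (NumA.add hM' hv')
        (TGen.cons (lin hM' 3 2) (NumA.add (lin hM' 3 4) hv') (lin hM' 3 1)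
        (TGen.cons hv' (NumA.add (lin hM' 4 4) hv') (NumA.add hM' hv')
        (TGen.cons (lin hM' 3 2) (lin hM' 3 1) (NumA.add (lin hM' 4 4) hv') TGen.nil)))
    · rw [encTs_flatMap]
  have g4 : PGen (m + 1) (fun ρ : Fin (m + 1) → List A => trW (ρ 0)) :=
    PGen.append g1 (PGen.append g2 (PGen.append g3 (gen_lettersT (PGen.var 0))))
  exact PGen.letG hF (K := fun w _ => trW w) g4

/-! ## Lookup -/

/-- last letter of the word of a triple -/
def isE2 : A → Bool
  | .e2 => true
  | _ => false

/-- component of a triple -/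
def comp (e : A) (t : ℕ × ℕ × ℕ) : ℕ :=
  match e with
  | .e0 => t.1
  | .e1 => t.2.1
  | _ => t.2.2

/-- search for the number `i` as component `e` of the triple number `j` -/
def lookF (e : A) (j i : ℕ) (p : List A) (c : A) : List A :=
  if c = e then (if cnt isE2 p = j ∧ tr A.tick p = i then [.tick] else []) else []

theorem tr_rep (w : List A) (n : ℕ) : tr A.tick (w ++ List.replicate n A.tick) = tr A.tick w + n := by
  induction n with
  | zero => simp
  | succ n ih =>
    rw [List.replicate_succ', ← List.append_assoc, tr_snoc, if_pos rfl, ih]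
    omega

theorem cnt_rep (w : List A) (n : ℕ) : cnt isE2 (w ++ List.replicate n A.tick) = cnt isE2 w := by
  rw [cnt_append]
  have : cnt isE2 (List.replicate n A.tick) = 0 := by
    unfold cnt
    rw [List.filter_replicate_of_neg (by simp [isE2])]
    rfl
  omega

theorem scan_tk (f : List A → A → List A) (hf : ∀ p, f p .tick = []) : ∀ (n : ℕ) (p : List A),
    scan f p (List.replicate n .tick) = []
  | 0, _ => rfl
  | n + 1, p => by
    rw [List.replicate_succ, scan, hf, scan_tk f hf n]
    rfl

theorem tr_encT (p : List A) (t : ℕ × ℕ × ℕ) : tr A.tick (p ++ encT t) = 0 := by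
  have : p ++ encT t = (p ++ List.replicate t.1 .tick ++ [.e0] ++ List.replicate t.2.1 .tick ++ [.e1] ++
      List.replicate t.2.2 .tick) ++ [.e2] := by simp [encT]
  rw [this, tr_snoc, if_neg (by simp)]

theorem cnt_encT (p : List A) (t : ℕ × ℕ × ℕ) : cnt isE2 (p ++ encT t) = cnt isE2 p + 1 := by
  have : p ++ encT t = (p ++ List.replicate t.1 .tick ++ [.e0] ++ List.replicate t.2.1 .tick ++ [.e1] ++
      List.replicate t.2.2 .tick) ++ [.e2] := by simp [encT]
  rw [this, cnt_append, cnt_rep, cnt_append, cnt_rep, cnt_append, cnt_rep]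
  rfl

theorem cnt_encTs : ∀ (ts : List (ℕ × ℕ × ℕ)) (p : List A),
    cnt isE2 (p ++ encTs ts) = cnt isE2 p + ts.length
  | [], p => by simp [encTs]
  | t :: ts, p => by
    rw [encTs_cons, ← List.append_assoc, cnt_encTs ts, cnt_encT, List.length_cons]
    omega

theorem scan_encT (f : List A → A → List A) (hf : ∀ p, f p .tick = []) (p : List A)
    (t : ℕ × ℕ × ℕ) : scan f p (encT t) = f (p ++ List.replicate t.1 .tick) .e0 ++
      (f (p ++ List.replicate t.1 .tick ++ [.e0] ++ List.replicate t.2.1 .tick) .e1 ++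
      f (p ++ List.replicate t.1 .tick ++ [.e0] ++ List.replicate t.2.1 .tick ++ [.e1] ++
        List.replicate t.2.2 .tick) .e2) := by
  unfold encT
  simp only [scan_append, scan_tk f hf, scan, List.nil_append, List.append_nil]

theorem look_encT (e : A) (he : e = .e0 ∨ e = .e1 ∨ e = .e2) (j i : ℕ) (p : List A)
    (hp : tr A.tick p = 0) (t : ℕ × ℕ × ℕ) :
    scan (lookF e j i) p (encT t) = [] ↔ ¬ (cnt isE2 p = j ∧ comp e t = i) := by
  have hf : ∀ p, lookF e j i p .tick = [] := by
    intro p
    unfold lookF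
    rw [if_neg (by rcases he with rfl | rfl | rfl <;> simp)]
  rw [scan_encT _ hf]
  have c1 : cnt isE2 (p ++ List.replicate t.1 .tick ++ [.e0] ++ List.replicate t.2.1 .tick) =
      cnt isE2 p := by
    rw [cnt_rep, cnt_append, cnt_rep]
    rfl
  have c2 : cnt isE2 (p ++ List.replicate t.1 .tick ++ [.e0] ++ List.replicate t.2.1 .tick ++ [.e1] ++
        List.replicate t.2.2 .tick) = cnt isE2 p := by
    rw [cnt_rep, cnt_append, c1]
    rfl
  have t0 : tr A.tick (p ++ List.replicate t.1 .tick) = t.1 := by rw [tr_rep, hp, Nat.zero_add]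
  have t1 : tr A.tick (p ++ List.replicate t.1 .tick ++ [.e0] ++ List.replicate t.2.1 .tick) = t.2.1 := by
    rw [tr_rep, tr_snoc, if_neg (by simp), Nat.zero_add]
  have t2 : tr A.tick (p ++ List.replicate t.1 .tick ++ [.e0] ++ List.replicate t.2.1 .tick ++ [.e1] ++
        List.replicate t.2.2 .tick) = t.2.2 := by
    rw [tr_rep, tr_snoc, if_neg (by simp), Nat.zero_add]
  unfold lookF
  rw [cnt_rep, c1, c2, t0, t1, t2]
  rcases he with rfl | rfl | rfl
  · have n1 : ¬ A.e1 = A.e0 := by simp
    have n2 : ¬ A.e2 = A.e0 := by simp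
    rw [if_pos rfl, if_neg n1, if_neg n2]
    by_cases h : cnt isE2 p = j ∧ t.1 = i
    · rw [if_pos h]
      simpa [comp] using h
    · rw [if_neg h]
      simpa [comp] using h
  · have n1 : ¬ A.e0 = A.e1 := by simp
    have n2 : ¬ A.e2 = A.e1 := by simp
    rw [if_pos rfl, if_neg n1, if_neg n2]
    by_cases h : cnt isE2 p = j ∧ t.2.1 = i
    · rw [if_pos h]
      simpa [comp] using h
    · rw [if_neg h]
      simpa [comp] using h
  · have n1 : ¬ A.e0 = A.e2 := by simp
    have n2 : ¬ A.e1 = A.e2 := by simp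
    rw [if_pos rfl, if_neg n1, if_neg n2]
    by_cases h : cnt isE2 p = j ∧ t.2.2 = i
    · rw [if_pos h]
      simpa [comp] using h
    · rw [if_neg h]
      simpa [comp] using h

theorem look_encTs (e : A) (he : e = .e0 ∨ e = .e1 ∨ e = .e2) (j i : ℕ) :
    ∀ (ts : List (ℕ × ℕ × ℕ)) (p : List A), tr A.tick p = 0 →
    (scan (lookF e j i) p (encTs ts) ≠ [] ↔ ∃ d t, ts[d]? = some t ∧ cnt isE2 p + d = j ∧
      comp e t = i)
  | [], p, _ => by simp [encTs, scan]
  | t :: ts, p, hp => by
    have ih := look_encTs e he j i ts (p ++ encT t) (tr_encT p t)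
    have h0 := look_encT e he j i p hp t
    rw [encTs_cons, scan_append, ne_eq, List.append_eq_nil_iff, not_and_or, h0, not_not,
      ← ne_eq (scan _ _ _), ih, cnt_encT]
    constructor
    · rintro (⟨h1, h2⟩ | ⟨d, s, h1, h2, h3⟩)
      · exact ⟨0, t, rfl, by omega, h2⟩
      · exact ⟨d + 1, s, by simpa using h1, by omega, h3⟩
    · rintro ⟨d, s, h1, h2, h3⟩
      rcases d with _ | d
      · left
        simp only [List.getElem?_cons_zero, Option.some.injEq] at h1
        subst h1
        exact ⟨by omega, h3⟩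
      · right
        exact ⟨d, s, by simpa using h1, by omega, h3⟩

end Pool.Agent.SO.H82
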