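import Pool.Agent.Helper82_SO.Kpoly

/-!
# The reduction is computable in polynomial time (module KPOLY, part 3)
-/

namespace Pool.Agent.SO.H82

open Pool.Agent.Helper53_CookLevin Pool.Agent.Helper53_Chan Turing
open Pool.Agent.Common_CookLevin (encodeCNF CNF CNFLetter)
open Pool.Agent.Helper32_Poly

/-- lookup in the word of the triples; `M` is the length of the formula -/
def lookP (M : ℕ) (v : List A) (k : Fin 5) (j i : ℕ) : Prop :=
  if k = 0 then scan (lookF .e0 j i) [] v ≠ []
  else if k = 1 then scan (lookF .e1 j i) [] v ≠ []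
  else if k = 2 then scan (lookF .e2 j i) [] v ≠ []
  else if k = 3 then i = 6 * M + 4
  else i = 6 * M + 5

/-- numbers which are small enough -/
def Small (M : ℕ) (t : ℕ × ℕ × ℕ) : Prop := t.1 < 6 * M + 4 ∧ t.2.1 < 6 * M + 4 ∧ t.2.2 < 6 * M + 4

theorem lookP_iff (M : ℕ) (ts : List (ℕ × ℕ × ℕ)) (hs : ∀ t ∈ ts, Small M t) (k : Fin 5) (j i : ℕ)
    (hj : j < ts.length) :
    lookP M (encTs ts) k j i ↔ Lk (instOf (6 * M + 3) ts) k j i := by
  have key : ∀ e : A, (e = .e0 ∨ e = .e1 ∨ e = .e2) →
      (scan (lookF e j i) [] (encTs ts) ≠ [] ↔ comp e (ts.get ⟨j, hj⟩) = i) := by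
    intro e he
    rw [look_encTs e he j i ts [] rfl]
    constructor
    · rintro ⟨d, t, h1, h2, h3⟩
      have h4 : d = j := by
        have : cnt isE2 ([] : List A) = 0 := rfl
        omega
      subst h4
      rw [List.getElem?_eq_getElem hj, Option.some.injEq] at h1
      subst h1
      exact h3
    · intro h
      exact ⟨j, ts.get ⟨j, hj⟩, List.getElem?_eq_getElem hj, Nat.zero_add j, h⟩
  have hsm := hs (ts.get ⟨j, hj⟩) (List.get_mem _ _)
  have hmod : ∀ x : ℕ, x < 6 * M + 4 → (Fin.ofNat (6 * M + 3 + 1) x).val = x := by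
    intro x hx
    rw [Fin.val_ofNat]
    exact Nat.mod_eq_of_lt (by omega)
  have hel : ∀ k : Fin 3, (el (instOf (6 * M + 3) ts) ⟨j, hj⟩ ⟨k.val, by omega⟩).val =
      (instOf (6 * M + 3) ts ⟨j, hj⟩ k).val := by
    intro k
    unfold el
    rw [dif_pos k.isLt]
  unfold lookP Lk
  have hex : ∀ P : j < ts.length → Prop, (∃ h : j < ts.length, P h) ↔ P hj :=
    fun P => ⟨fun ⟨_, h⟩ => h, fun h => ⟨hj, h⟩⟩
  rw [hex]
  have h5 : ∀ k : Fin 5, k = 0 ∨ k = 1 ∨ k = 2 ∨ k = 3 ∨ k = 4 := by decide
  rcases h5 k with rfl | rfl | rfl | rfl | rfl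
  · rw [if_pos rfl, key .e0 (Or.inl rfl)]
    have h := hel 0
    simp only [instOf, Fin.val_zero, if_true] at h
    rw [hmod _ hsm.1] at h
    show comp .e0 _ = i ↔ (el _ _ (⟨0, _⟩ : Fin 5)).val = i
    rw [h]
    rfl
  · rw [if_neg (by decide), if_pos rfl, key .e1 (Or.inr (Or.inl rfl))]
    have h := hel 1
    simp only [instOf, Fin.val_one] at h
    rw [if_neg (by decide), if_true, hmod _ hsm.2.1] at h
    show comp .e1 _ = i ↔ (el _ _ (⟨1, _⟩ : Fin 5)).val = i
    rw [h]
    rfl
  · rw [if_neg (by decide), if_neg (by decide), if_pos rfl, key .e2 (Or.inr (Or.inr rfl))]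
    have h := hel 2
    simp only [instOf, Fin.val_two] at h
    rw [if_neg (by decide), if_neg (by decide), hmod _ hsm.2.2] at h
    show comp .e2 _ = i ↔ (el _ _ (⟨2, _⟩ : Fin 5)).val = i
    rw [h]
    rfl
  · rw [if_neg (by decide), if_neg (by decide), if_neg (by decide), if_pos rfl]
    have h : (el (instOf (6 * M + 3) ts) ⟨j, hj⟩ 3).val = 6 * M + 4 := rfl
    show i = 6 * M + 4 ↔ (el _ _ (3 : Fin 5)).val = i
    rw [h]
    exact eq_comm
  · rw [if_neg (by decide), if_neg (by decide), if_neg (by decide), if_neg (by decide)]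
    have h : (el (instOf (6 * M + 3) ts) ⟨j, hj⟩ 4).val = 6 * M + 5 := rfl
    show i = 6 * M + 5 ↔ (el _ _ (4 : Fin 5)).val = i
    rw [h]
    exact eq_comm

theorem small_wordT (M : ℕ) : ∀ (u : List CNFLetter) (p k : ℕ), k ≤ p → p + u.length = M →
    ∀ t ∈ wordT M p k u, Small M t
  | [], p, k, _, _, t, ht => by simp [wordT] at ht
  | c :: u, p, k, hk, hp, t, ht => by
    rw [List.length_cons] at hp
    rw [wordT, List.mem_append] at ht
    rcases ht with ht | ht
    · unfold Small
      cases c <;> simp only [letterT, List.mem_cons, List.not_mem_nil, or_false] at ht <;>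
        rcases ht with rfl | rfl <;> refine ⟨?_, ?_, ?_⟩ <;> simp only <;> omega
    · refine small_wordT M u (p + 1) _ ?_ (by omega) t ht
      split_ifs <;> omega

theorem small_triples (u : List CNFLetter) : ∀ t ∈ triples u, Small u.length t := by
  intro t ht
  unfold triples at ht
  rw [List.mem_append, List.mem_map, List.mem_cons, List.mem_append, List.mem_flatMap] at ht
  rcases ht with ⟨e, he, rfl⟩ | rfl | ⟨v, hv, ht⟩ | ht
  · have := List.mem_range.1 he
    refine ⟨?_, ?_, ?_⟩ <;> simp only <;> omega
  · refine ⟨?_, ?_, ?_⟩ <;> simp only <;> omega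
  · have := List.mem_range.1 hv
    simp only [List.mem_cons, List.not_mem_nil, or_false] at ht
    unfold Small
    rcases ht with rfl | rfl | rfl | rfl <;> refine ⟨?_, ?_, ?_⟩ <;> simp only <;> omega
  · exact small_wordT u.length u 0 0 le_rfl (by omega) t ht

/-! ## The matrix -/

open Classical in
/-- entry of the matrix -/
noncomputable def bitW (M : ℕ) (v : List A) (c : Cd) (a b : ℕ) : List A :=
  if c.sem (lookP M v) a b then [.net] else [.upper]

theorem scan_lookF_congr (e : A) (j i : ℕ) (v : List A) : scan (lookF e j i) [] v =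
    scan (fun p c => lookF e j i p c) [] v := rfl

theorem gen_look {m : ℕ} (e : A) (iv ij ii : Fin m) :
    PGen m (fun ρ : Fin m → List A => scan (lookF e (ρ ij).length (ρ ii).length) [] (ρ iv)) := by
  refine PGen.loopG (PGen.var iv) (K := fun c p ρ => lookF e (ρ ij).length (ρ ii).length p c)
    (fun c => ?_)
  unfold lookF
  by_cases h : c = e
  · simp only [h, if_true]
    have h1 : Test (m + 1) (fun ρ : Fin (m + 1) → List A =>
        cnt isE2 (ρ 0) = ((ρ ∘ Fin.succ) ij).length) :=
      Test.congr (Test.lenEq (PGen.cnt isE2 A.tick (PGen.var (0 : Fin (m + 1))))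
        (PGen.var ij.succ)) (fun ρ => by rw [List.length_replicate]; rfl)
    have h2 : Test (m + 1) (fun ρ : Fin (m + 1) → List A =>
        tr A.tick (ρ 0) = ((ρ ∘ Fin.succ) ii).length) :=
      Test.congr (Test.lenEq (PGen.tr A.tick A.tick (PGen.var (0 : Fin (m + 1))))
        (PGen.var ii.succ)) (fun ρ => by rw [List.length_replicate]; rfl)
    exact Test.ite (Test.and h1 h2) (PGen.const _) (PGen.const _)
  · simp only [h, if_false]
    exact PGen.const []

/-- variables of the body: second index, first index, word of the triples, formula -/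
theorem gen_lookBit (k : Fin 5) (ij ii : Fin 4) :
    PGen 4 (fun ρ : Fin 4 → List A => by
      classical
      exact if lookP (ρ 3).length (ρ 2) k (ρ ij).length (ρ ii).length then [A.net] else [A.upper]) := by
  classical
  have hw : ∀ (e : A), PGen 4 (fun ρ : Fin 4 → List A =>
      if scan (lookF e (ρ ij).length (ρ ii).length) [] (ρ 2) = [] then [A.upper] else [A.net]) :=
    fun e => Test.ite (Test.empty (gen_look e 2 ij ii)) (PGen.const _) (PGen.const _)
  have hn : ∀ b : ℕ, PGen 4 (fun ρ : Fin 4 → List A =>
      if (ρ ii).length = 6 * (ρ 3).length + b then [A.net] else [A.upper]) := by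
    intro b
    have h1 : Test 4 (fun ρ : Fin 4 → List A => (ρ ii).length = 6 * (ρ 3).length + b) :=
      Test.congr (Test.lenEq (PGen.var ii)
        (NumA.add (NumA.mul (NumA.const 6) (NumA.var (3 : Fin 4))) (NumA.const b) A.tick))
        (fun ρ => by rw [List.length_replicate])
    exact Test.ite h1 (PGen.const _) (PGen.const _)
  unfold lookP
  fin_cases k
  · exact PGen.congr (hw .e0) (fun ρ => by simp [ite_not])
  · exact PGen.congr (hw .e1) (fun ρ => by simp [ite_not])
  · exact PGen.congr (hw .e2) (fun ρ => by simp [ite_not])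
  · exact PGen.congr (hn 4) (fun ρ => by simp)
  · exact PGen.congr (hn 5) (fun ρ => by simp)

theorem gen_bitW (c : Cd) : PGen 4 (fun ρ : Fin 4 → List A =>
    bitW (ρ 3).length (ρ 2) c (ρ 1).length (ρ 0).length) := by
  classical
  have heq : Test 4 (fun ρ : Fin 4 → List A => (ρ 1).length = (ρ 0).length) :=
    Test.lenEq (PGen.var 1) (PGen.var 0)
  have hle : Test 4 (fun ρ : Fin 4 → List A => (ρ 1).length ≤ (ρ 0).length) :=
    Test.lenLe (PGen.var 1) (PGen.var 0)
  have hge : Test 4 (fun ρ : Fin 4 → List A => (ρ 0).length ≤ (ρ 1).length) :=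
    Test.lenLe (PGen.var 0) (PGen.var 1)
  unfold bitW
  cases c with
  | ff => exact PGen.congr (PGen.const [A.upper]) (fun ρ => by rw [if_neg (by simp [Cd.sem])])
  | tt => exact PGen.congr (PGen.const [A.net]) (fun ρ => by rw [if_pos (by simp [Cd.sem])])
  | eq => exact Test.ite heq (PGen.const _) (PGen.const _)
  | ne => exact PGen.congr (Test.ite heq (PGen.const [A.upper]) (PGen.const [A.net])) (fun ρ => by
      simp [Cd.sem])
  | lt => exact PGen.congr (Test.ite hge (PGen.const [A.upper]) (PGen.const [A.net])) (fun ρ => by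
      simp only [Cd.sem]
      split_ifs <;> first | rfl | omega)
  | gt => exact PGen.congr (Test.ite hle (PGen.const [A.upper]) (PGen.const [A.net])) (fun ρ => by
      simp only [Cd.sem]
      split_ifs <;> first | rfl | omega)
  | le => exact Test.ite hle (PGen.const _) (PGen.const _)
  | ge => exact Test.ite hge (PGen.const _) (PGen.const _)
  | lk k => exact gen_lookBit k 1 0
  | kl k => exact gen_lookBit k 0 1

theorem PGen.flatMapC {m : ℕ} {α : Type} (l : List α) {F : α → (Fin m → List A) → List A}
    (h : ∀ a, PGen m (F a)) : PGen m (fun ρ => l.flatMap (fun a => F a ρ)) := by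
  induction l with
  | nil => exact PGen.const []
  | cons a l ih =>
    refine PGen.congr (PGen.append (h a) ih) (fun ρ => ?_)
    rw [List.flatMap_cons]

/-- number of vertices of a type -/
def szW (M : ℕ) (v : List A) (t : Ty) : ℕ := sz (6 * M + 3 + 1) (cnt isE2 v) t

theorem gen_szW {m : ℕ} (iM iv : Fin m) (t : Ty) :
    PGen m (fun ρ : Fin m → List A => List.replicate (szW (ρ iM).length (ρ iv) t) A.tick) := by
  have h1 : PGen m (fun ρ : Fin m → List A => List.replicate (6 * (ρ iM).length + 3 + 1 + 2) A.tick) :=
    NumA.add (NumA.add (NumA.add (NumA.mul (NumA.const 6) (NumA.var iM)) (NumA.const 3))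
      (NumA.const 1)) (NumA.const 2) A.tick
  have h2 : PGen m (fun ρ : Fin m → List A => List.replicate (cnt isE2 (ρ iv)) A.tick) :=
    PGen.cnt isE2 A.tick (PGen.var iv)
  cases t with
  | top => exact h1
  | hel => exact h1
  | jam s => exact h2
  | hj s => exact h2
  | pr k => exact h2
  | hc k => exact h2
  | hd s => exact h2
  | ho s t => exact h2

/-- the word of the matrix -/
noncomputable def matW (M : ℕ) (v : List A) : List A :=
  [false, true].flatMap (fun s => tys.flatMap (fun t => (List.range (szW M v t)).flatMap (fun a =>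
    .width :: [false, true].flatMap (fun s' => tys.flatMap (fun t' =>
      (List.range (szW M v t')).flatMap (fun b =>
        if s = s' then bitW M v (cd t t') a b else [.upper]))))))

theorem gen_matW : PGen 2 (fun ρ : Fin 2 → List A => matW (ρ 1).length (ρ 0)) := by
  have h3 : ∀ (s : Bool) (t : Ty) (s' : Bool) (t' : Ty), PGen 3 (fun ρ : Fin 3 → List A =>
      (List.range (szW (ρ 2).length (ρ 1) t')).flatMap (fun b =>
        if s = s' then bitW (ρ 2).length (ρ 1) (cd t t') (ρ 0).length b else [.upper])) := by
    intro s t s' t'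
    refine PGen.congr (PGen.loopRange (gen_szW 2 1 t') (K := fun b ρ =>
      if s = s' then bitW (ρ 2).length (ρ 1) (cd t t') (ρ 0).length b.length else [.upper]) ?_)
      (fun ρ => ?_)
    · by_cases h : s = s'
      · simp only [h, if_true]
        exact gen_bitW (cd t t')
      · simp only [h, if_false]
        exact PGen.const _
    · refine List.flatMap_congr (fun b _ => ?_)
      simp only [List.length_replicate]
  have h2 : ∀ (s : Bool) (t : Ty), PGen 2 (fun ρ : Fin 2 → List A =>
      (List.range (szW (ρ 1).length (ρ 0) t)).flatMap (fun a =>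
    .width :: [false, true].flatMap (fun s' => tys.flatMap (fun t' =>
      (List.range (szW (ρ 1).length (ρ 0) t')).flatMap (fun b =>
        if s = s' then bitW (ρ 1).length (ρ 0) (cd t t') a b else [.upper]))))) := by
    intro s t
    refine PGen.congr (PGen.loopRange (gen_szW 1 0 t) (K := fun a ρ =>
      .width :: [false, true].flatMap (fun s' => tys.flatMap (fun t' =>
      (List.range (szW (ρ 1).length (ρ 0) t')).flatMap (fun b =>
        if s = s' then bitW (ρ 1).length (ρ 0) (cd t t') a.length b else [.upper])))) ?_)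
      (fun ρ => ?_)
    · exact PGen.append (PGen.const [A.width]) (PGen.flatMapC _ (fun s' => PGen.flatMapC _
        (fun t' => h3 s t s' t')))
    · refine List.flatMap_congr (fun b _ => ?_)
      simp only [List.length_replicate]
  exact PGen.flatMapC _ (fun s => PGen.flatMapC _ (fun t => h2 s t))

/-- the whole reduction on the working alphabet -/
theorem gen_all : PGen 1 (fun ρ : Fin 1 → List A => matW (ρ 0).length (trW (ρ 0).reverse)) :=
  PGen.letG (gen_trW (PGen.reverse (PGen.var (0 : Fin 1))))
    (K := fun v ρ => matW (ρ 0).length v) gen_matW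

/-! ## Correctness -/

/-- output letters in the working alphabet -/
def embG : GLetter → A
  | .row => .width
  | .one => .net
  | .zero => .upper

/-- reading the output letters -/
def toG : A → List GLetter
  | .width => [.row]
  | .net => [.one]
  | .upper => [.zero]
  | _ => []

theorem toG_embG : ∀ w : List GLetter, (w.map embG).flatMap toG = w
  | [] => rfl
  | c :: w => by
    rw [List.map_cons, List.flatMap_cons, toG_embG w]
    cases c <;> rfl

theorem verts_flatMap {n m : ℕ} {β : Type} (g : Vx n m → List β) :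
    (verts n m).flatMap g = tys.flatMap (fun t =>
      (List.finRange (sz n m t)).flatMap (fun i => g (mk t i))) := by
  unfold verts
  rw [List.flatMap_assoc]
  refine List.flatMap_congr (fun t _ => ?_)
  rw [List.flatMap_map]

theorem finRange_flatMap {β : Type} (k : ℕ) (g : Fin k → List β) (h : ℕ → List β)
    (hg : ∀ i, g i = h i.val) : (List.finRange k).flatMap g = (List.range k).flatMap h := by
  rw [← List.map_coe_finRange_eq_range, List.flatMap_map]
  exact List.flatMap_congr (fun i _ => hg i)

/-- the two copies -/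
def cp {n m : ℕ} : Bool → Vx n m → Vx n m ⊕ Vx n m
  | false => Sum.inl
  | true => Sum.inr

theorem verts2_flatMap {n m : ℕ} {β : Type} (g : Vx n m ⊕ Vx n m → List β) :
    (verts2 n m).flatMap g = [false, true].flatMap (fun s => tys.flatMap (fun t =>
      (List.finRange (sz n m t)).flatMap (fun i => g (cp s (mk t i))))) := by
  unfold verts2
  rw [List.flatMap_append, List.flatMap_map, List.flatMap_map, verts_flatMap, verts_flatMap]
  simp only [List.flatMap_cons, List.flatMap_nil, List.append_nil]
  rfl

theorem matW_eq (M : ℕ) (ts : List (ℕ × ℕ × ℕ)) (hs : ∀ t ∈ ts, Small M t) :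
    matW M (encTs ts) = (encGraph (grF (instOf (6 * M + 3) ts))).map embG := by
  classical
  set T := instOf (6 * M + 3) ts with hT
  have hcnt : cnt isE2 (encTs ts) = ts.length := by
    have := cnt_encTs ts []
    rw [List.nil_append] at this
    rw [this]
    show 0 + _ = _
    omega
  have hsz : ∀ t, szW M (encTs ts) t = sz (6 * M + 3 + 1) ts.length t := by
    intro t
    unfold szW
    rw [hcnt]
  -- entries
  have hbit : ∀ (t t' : Ty) (i : Fin (sz (6 * M + 3 + 1) ts.length t))
      (i' : Fin (sz (6 * M + 3 + 1) ts.length t')),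
      (if (Gr T).Adj (mk t i) (mk t' i') then [A.net] else [A.upper]) =
        bitW M (encTs ts) (cd t t') i.val i'.val := by
    intro t t' i i'
    unfold bitW
    have h1 := adj_iff_sem T (mk t i) (mk t' i')
    rw [ty_mk, ty_mk, ix_mk, ix_mk] at h1
    have h2 : (cd t t').sem (lookP M (encTs ts)) i.val i'.val ↔ (cd t t').sem (Lk T) i.val i'.val := by
      rcases hcd : cd t t' with _ | _ | _ | _ | _ | _ | _ | _ | k | k <;> simp only [Cd.sem]
      · refine lookP_iff M ts hs k _ _ ?_
        cases t <;> cases t' <;> simp_all [cd, cd0] <;> exact i.isLt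
      · refine lookP_iff M ts hs k _ _ ?_
        cases t <;> cases t' <;> simp_all [cd, cd0] <;> exact i'.isLt
    by_cases h : (Gr T).Adj (mk t i) (mk t' i')
    · rw [if_pos h, if_pos (h2.2 (h1.1 h))]
    · rw [if_neg h, if_neg (fun h' => h (h1.2 (h2.1 h')))]
  have hbit2 : ∀ (s s' : Bool) (t t' : Ty) (i : Fin (sz (6 * M + 3 + 1) ts.length t))
      (i' : Fin (sz (6 * M + 3 + 1) ts.length t')),
      (if (Gr T ⊕g Gr T).Adj (cp s (mk t i)) (cp s' (mk t' i')) then [A.net] else [A.upper]) =
        if s = s' then bitW M (encTs ts) (cd t t') i.val i'.val else [.upper] := by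
    intro s s' t t' i i'
    rw [← hbit]
    cases s <;> cases s' <;> simp [cp]
  rw [encGraph_grF, List.map_flatMap, verts2_flatMap]
  unfold matW
  refine List.flatMap_congr (fun s _ => List.flatMap_congr (fun t _ => ?_))
  rw [hsz]
  symm
  refine finRange_flatMap _ _ _ (fun i => ?_)
  rw [List.map_cons]
  refine congrArg (List.cons _) ?_
  rw [List.map_map, List.map_eq_flatMap, verts2_flatMap]
  refine List.flatMap_congr (fun s' _ => List.flatMap_congr (fun t' _ => ?_))
  rw [hsz]
  refine finRange_flatMap _ _ _ (fun i' => ?_)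
  rw [← hbit2]
  by_cases h : (Gr T ⊕g Gr T).Adj (cp s (mk t i)) (cp s' (mk t' i'))
  · rw [if_pos h]
    simp only [Function.comp_apply]
    rw [if_pos h]
    rfl
  · rw [if_neg h]
    simp only [Function.comp_apply]
    rw [if_neg h]
    rfl

/-- the reduction -/
theorem word_formula (F : CNF) :
    matW ((encodeCNF F).map inj).length (trW ((encodeCNF F).map inj).reverse) =
      (encGraph (grF (instF F))).map embG := by
  rw [← List.map_reverse, trW_map, List.length_map]
  have h := small_triples (encodeCNF F).reverse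
  rw [List.length_reverse] at h
  exact matW_eq (encodeCNF F).length _ h

theorem kpoly : KpolyStmt := by
  refine ⟨fun F => grF (instF F), fun F => grF_iso _, ?_⟩
  have c1 : TM2ComputableInPolyTime encodeCNF (id : List A → List A)
      (fun F => (encodeCNF F).map inj) :=
    morphComputable encodeCNF id _ [] (fun b => [inj b]) (fun F => by
      show (encodeCNF F).map inj = [] ++ (encodeCNF F).flatMap (fun b => [inj b])
      rw [List.nil_append]
      induction encodeCNF F with
      | nil => rfl
      | cons b x ih => rw [List.map_cons, List.flatMap_cons, ih]; rfl)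
  obtain ⟨c2⟩ := pgen_computable _ gen_all
  have c3 : TM2ComputableInPolyTime (id : List A → List A) (fun w : List GLetter => w)
      (fun w => w.flatMap toG) :=
    morphComputable id (fun w => w) _ [] toG (fun w => by
      rw [List.nil_append]
      rfl)
  obtain ⟨c4⟩ := TM2ComputableInPolyTime.comp c1 c2
  obtain ⟨c5⟩ := TM2ComputableInPolyTime.comp c4 c3
  refine ⟨⟨c5.toTM2ComputableAux, c5.time, fun F => ?_⟩⟩
  have h := c5.outputsFun F
  have e : (((fun w : List A => w.flatMap toG) ∘ ((fun w : List A =>
      matW ((![w] : Fin 1 → List A) 0).length (trW ((![w] : Fin 1 → List A) 0).reverse)) ∘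
      fun F : CNF => (encodeCNF F).map inj)) F) = encGraph (grF (instF F)) := by
    show (matW ((encodeCNF F).map inj).length (trW ((encodeCNF F).map inj).reverse)).flatMap toG
      = encGraph (grF (instF F))
    rw [word_formula, toG_embG]
  rw [e] at h
  exact h

end Pool.Agent.SO.H82
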