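import Pool.Agent.Helper82_Obs.Polygon
import Pool.Agent.Helper88_SO.Tools

/-!
# From weak representations to representations (modules GEN, STAB, SUM, REAL, DOUBLE)
-/

namespace Pool.Agent.SO.H82

open Topology Filter

/-! ## General position -/

theorem lin_ne {A B : ℝ} (hB : B ≠ 0) : ∀ᶠ e in 𝓝[>] (0 : ℝ), A + B * e ≠ 0 := by
  by_cases hA : A = 0
  · subst hA
    filter_upwards [self_mem_nhdsWithin] with e he
    rw [zero_add]
    exact mul_ne_zero hB (ne_of_gt he)
  · have h1 : Tendsto (fun e : ℝ => A + B * e) (𝓝[>] 0) (𝓝 A) := by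
      have : Tendsto (fun e : ℝ => A + B * e) (𝓝 0) (𝓝 (A + B * 0)) :=
        (Continuous.tendsto (by fun_prop) 0)
      rw [mul_zero, add_zero] at this
      exact this.mono_left nhdsWithin_le_nhds
    exact h1.eventually_ne hA

theorem quad_ne {A B C : ℝ} (hC : C ≠ 0) : ∀ᶠ e in 𝓝[>] (0 : ℝ), A + B * e + C * e ^ 2 ≠ 0 := by
  by_cases hA : A = 0
  · subst hA
    filter_upwards [self_mem_nhdsWithin, lin_ne (A := B) hC] with e he h
    have : 0 + B * e + C * e ^ 2 = e * (B + C * e) := by ring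
    rw [this]
    exact mul_ne_zero (ne_of_gt he) h
  · have h1 : Tendsto (fun e : ℝ => A + B * e + C * e ^ 2) (𝓝[>] 0) (𝓝 A) := by
      have : Tendsto (fun e : ℝ => A + B * e + C * e ^ 2) (𝓝 0) (𝓝 (A + B * 0 + C * 0 ^ 2)) :=
        (Continuous.tendsto (by fun_prop) 0)
      have h0 : A + B * 0 + C * 0 ^ 2 = A := by ring
      rw [h0] at this
      exact this.mono_left nhdsWithin_le_nhds
    exact h1.eventually_ne hA

theorem gen : GenStmt := by
  intro W _ P ε hε
  obtain ⟨n, ⟨φ⟩⟩ := Finite.exists_equiv_fin W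
  set s : W → ℝ := fun w => ((φ w : ℕ) : ℝ) with hs
  have hinj : Function.Injective s := by
    intro a b hab
    apply φ.injective
    apply Fin.ext
    have : ((φ a : ℕ) : ℝ) = ((φ b : ℕ) : ℝ) := hab
    exact_mod_cast this
  set R : ℝ → W → Pt := fun e w => ((P w).1 + e * s w, (P w).2 + e * s w ^ 2) with hR
  have h1 : ∀ᶠ e in 𝓝[>] (0 : ℝ), ∀ w, |(R e w).1 - (P w).1| < ε ∧ |(R e w).2 - (P w).2| < ε := by
    rw [eventually_all]
    intro w
    have h2 : Tendsto (fun e : ℝ => |(R e w).1 - (P w).1|) (𝓝[>] 0) (𝓝 0) := by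
      have : Tendsto (fun e : ℝ => |(P w).1 + e * s w - (P w).1|) (𝓝 0)
          (𝓝 |(P w).1 + 0 * s w - (P w).1|) := (Continuous.tendsto (by fun_prop) 0)
      simp only [zero_mul, add_zero, sub_self, abs_zero] at this
      exact this.mono_left nhdsWithin_le_nhds
    have h3 : Tendsto (fun e : ℝ => |(R e w).2 - (P w).2|) (𝓝[>] 0) (𝓝 0) := by
      have : Tendsto (fun e : ℝ => |(P w).2 + e * s w ^ 2 - (P w).2|) (𝓝 0)
          (𝓝 |(P w).2 + 0 * s w ^ 2 - (P w).2|) := (Continuous.tendsto (by fun_prop) 0)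
      simp only [zero_mul, add_zero, sub_self, abs_zero] at this
      exact this.mono_left nhdsWithin_le_nhds
    exact (h2.eventually_lt_const hε).and (h3.eventually_lt_const hε)
  have h2 : ∀ᶠ e in 𝓝[>] (0 : ℝ), ∀ u v, u ≠ v → R e u ≠ R e v := by
    rw [eventually_all]
    intro u
    rw [eventually_all]
    intro v
    by_cases huv : u = v
    · exact Eventually.of_forall (fun e h => absurd huv h)
    · have hne : s u - s v ≠ 0 := sub_ne_zero.2 (fun h => huv (hinj h))
      filter_upwards [lin_ne (A := (P u).1 - (P v).1) hne] with e he _ h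
      apply he
      have := congrArg Prod.fst h
      simp only [hR] at this
      linarith
  have h3 : ∀ᶠ e in 𝓝[>] (0 : ℝ), ∀ u v w, u ≠ v → v ≠ w → u ≠ w →
      ori (R e u) (R e v) (R e w) ≠ 0 := by
    rw [eventually_all]
    intro u
    rw [eventually_all]
    intro v
    rw [eventually_all]
    intro w
    by_cases huv : u = v
    · exact Eventually.of_forall (fun e h => absurd huv h)
    by_cases hvw : v = w
    · exact Eventually.of_forall (fun e _ h => absurd hvw h)
    by_cases huw : u = w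
    · exact Eventually.of_forall (fun e _ _ h => absurd huw h)
    have n1 : s v - s u ≠ 0 := sub_ne_zero.2 (fun h => huv (hinj h.symm))
    have n2 : s w - s u ≠ 0 := sub_ne_zero.2 (fun h => huw (hinj h.symm))
    have n3 : s w - s v ≠ 0 := sub_ne_zero.2 (fun h => hvw (hinj h.symm))
    filter_upwards [quad_ne (A := ori (P u) (P v) (P w))
      (B := ((P v).1 - (P u).1) * (s w ^ 2 - s u ^ 2) + (s v - s u) * ((P w).2 - (P u).2) -
        (((P v).2 - (P u).2) * (s w - s u) + (s v ^ 2 - s u ^ 2) * ((P w).1 - (P u).1)))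
      (mul_ne_zero (mul_ne_zero n1 n2) n3)] with e he _ _ _ h
    apply he
    rw [← h]
    simp only [hR, ori]
    ring
  obtain ⟨e, h1, h2, h3⟩ := (h1.and (h2.and h3)).exists
  refine ⟨R e, h1, generalPosition_of (fun u v h => ?_) h3⟩
  by_contra hne
  exact h2 u v hne h

/-! ## Stability -/

/-- the union of the edges -/
def edges {V : Type} (G : SimpleGraph V) (P : V → Pt) : Set Pt :=
  {z | ∃ x y, G.Adj x y ∧ z ∈ segment ℝ (P x) (P y)}

theorem isCompact_edges {V : Type} [Finite V] (G : SimpleGraph V) (P : V → Pt) :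
    IsCompact (edges G P) := by
  have : edges G P = ⋃ e : {e : V × V // G.Adj e.1 e.2}, segment ℝ (P e.1.1) (P e.1.2) := by
    ext z
    simp only [edges, Set.mem_ofPred_eq, Set.mem_iUnion, Subtype.exists, Prod.exists]
    constructor
    · rintro ⟨x, y, h, hz⟩
      exact ⟨x, y, h, hz⟩
    · rintro ⟨x, y, h, hz⟩
      exact ⟨x, y, h, hz⟩
  rw [this]
  exact isCompact_iUnion (fun e => Helper82_Obs.isCompact_seg _ _)

theorem dist_lt {p q : Pt} {ε : ℝ} (h1 : |p.1 - q.1| < ε) (h2 : |p.2 - q.2| < ε) :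
    dist p q < ε := by
  rw [Prod.dist_eq, Real.dist_eq, Real.dist_eq]
  exact max_lt h1 h2

theorem comb_close {p q p' q' : Pt} {ε a b : ℝ} (ha : 0 ≤ a) (hb : 0 ≤ b) (hab : a + b = 1)
    (hp : dist p' p < ε) (hq : dist q' q < ε) :
    dist (a • p' + b • q') (a • p + b • q) < ε := by
  rw [dist_eq_norm] at hp hq ⊢
  have h1 : a • p' + b • q' - (a • p + b • q) = a • (p' - p) + b • (q' - q) := by
    module
  rw [h1]
  calc ‖a • (p' - p) + b • (q' - q)‖ ≤ ‖a • (p' - p)‖ + ‖b • (q' - q)‖ := norm_add_le _ _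
    _ = a * ‖p' - p‖ + b * ‖q' - q‖ := by
      rw [norm_smul, norm_smul, Real.norm_of_nonneg ha, Real.norm_of_nonneg hb]
    _ < ε := by
      rcases eq_or_lt_of_le ha with h0 | h0
      · subst h0
        have : b = 1 := by linarith
        subst this
        simpa using hq
      · have k1 := mul_lt_mul_of_pos_left hp h0
        have k2 := mul_le_mul_of_nonneg_left hq.le hb
        have k3 : a * ε + b * ε = ε := by rw [← add_mul, hab, one_mul]
        linarith

theorem stab_one {V : Type} [Finite V] (G : SimpleGraph V) (P : V → Pt) (u v : V)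
    (h : Wit G P u v) : ∃ ε : ℝ, 0 < ε ∧ ∀ P' : V → Pt,
      (∀ v, |(P' v).1 - (P v).1| < ε ∧ |(P' v).2 - (P v).2| < ε) → Wit G P' u v := by
  obtain ⟨w, hw, d, hd, hray⟩ := h
  obtain ⟨a, b, ha, hb, hab, rfl⟩ := hw
  set w := a • P u + b • P v with hwdef
  have hdis : Disjoint (edges G P) {z : Pt | ∃ t : ℝ, 0 ≤ t ∧ z = w + t • d} := by
    rw [Set.disjoint_left]
    rintro z ⟨x, y, hxy, hz⟩ ⟨t, ht, rfl⟩
    exact hray t ht x y hxy hz
  obtain ⟨δ, hδ, hdis2⟩ := hdis.exists_thickenings (isCompact_edges G P)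
    (Helper82_Obs.isClosed_ray w d hd)
  refine ⟨δ, hδ, fun P' hP' => ⟨a • P' u + b • P' v, ⟨a, b, ha, hb, hab, rfl⟩, d, hd, ?_⟩⟩
  have hclose : ∀ v, dist (P' v) (P v) < δ := fun v => dist_lt (hP' v).1 (hP' v).2
  intro t ht x y hxy hz
  have hz1 : a • P' u + b • P' v + t • d ∈ Metric.thickening δ (edges G P) := by
    rw [Metric.mem_thickening_iff]
    obtain ⟨a', b', ha', hb', hab', hz⟩ := hz
    refine ⟨a' • P x + b' • P y, ⟨x, y, hxy, a', b', ha', hb', hab', rfl⟩, ?_⟩
    rw [← hz]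
    exact comb_close ha' hb' hab' (hclose x) (hclose y)
  have hz2 : a • P' u + b • P' v + t • d ∈
      Metric.thickening δ {z : Pt | ∃ t : ℝ, 0 ≤ t ∧ z = w + t • d} := by
    rw [Metric.mem_thickening_iff]
    refine ⟨w + t • d, ⟨t, ht, rfl⟩, ?_⟩
    rw [dist_add_right]
    exact comb_close ha hb hab (hclose u) (hclose v)
  exact Set.disjoint_left.1 hdis2 hz1 hz2

theorem stab : StabStmt := by
  intro V _ G P hP
  have key : ∀ e : V × V, ∃ ε : ℝ, 0 < ε ∧ ∀ P' : V → Pt,
      (∀ v, |(P' v).1 - (P v).1| < ε ∧ |(P' v).2 - (P v).2| < ε) →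
      (e.1 ≠ e.2 → ¬ G.Adj e.1 e.2 → Wit G P' e.1 e.2) := by
    intro e
    by_cases h : e.1 ≠ e.2 ∧ ¬ G.Adj e.1 e.2
    · obtain ⟨ε, hε, h2⟩ := stab_one G P e.1 e.2 (hP e.1 e.2 h.1 h.2)
      exact ⟨ε, hε, fun P' hP' _ _ => h2 P' hP'⟩
    · exact ⟨1, one_pos, fun P' _ h1 h2 => absurd ⟨h1, h2⟩ h⟩
  choose f hf hf2 using key
  have h1 : ∀ᶠ ε in 𝓝[>] (0 : ℝ), ∀ e, ε ≤ f e := by
    rw [eventually_all]
    intro e
    filter_upwards [Ioo_mem_nhdsGT (hf e)] with ε hε
    exact hε.2.le
  obtain ⟨ε, h1, h2⟩ := (h1.and self_mem_nhdsWithin).exists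
  refine ⟨ε, h2, fun P' hP' u v huv hadj => hf2 (u, v) P' (fun x => ?_) huv hadj⟩
  exact ⟨(hP' x).1.trans_le (h1 _), (hP' x).2.trans_le (h1 _)⟩

/-! ## Two copies -/

theorem coord_le {z : Pt} {M : ℝ} (h : ‖z‖ ≤ M) : |z.1| ≤ M ∧ |z.2| ≤ M := by
  rw [Prod.norm_def, Real.norm_eq_abs, Real.norm_eq_abs] at h
  exact ⟨(le_max_left _ _).trans h, (le_max_right _ _).trans h⟩

theorem seg_bound {p q z : Pt} {M : ℝ} (hp : ‖p‖ ≤ M) (hq : ‖q‖ ≤ M) (hz : z ∈ segment ℝ p q) :
    ‖z‖ ≤ M := by
  have hc : Convex ℝ (Metric.closedBall (0 : Pt) M) := convex_closedBall 0 M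
  have h1 := hc.segment_subset (x := p) (y := q) (by simpa using hp) (by simpa using hq) hz
  simpa using h1

theorem sum : SumStmt := by
  intro V _ G P hP
  -- bound
  obtain ⟨M, hM⟩ : ∃ M : ℝ, ∀ v, ‖P v‖ ≤ M := by
    obtain ⟨M, hM⟩ := (Set.finite_range (fun v => ‖P v‖)).bddAbove
    exact ⟨M, fun v => hM ⟨v, rfl⟩⟩
  -- witnesses
  have hw : ∀ e : {e : V × V // e.1 ≠ e.2 ∧ ¬ G.Adj e.1 e.2}, Wit G P e.1.1 e.1.2 :=
    fun e => hP _ _ e.2.1 e.2.2
  choose w hwm d hd hray using hw
  -- direction of the translation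
  obtain ⟨c, hc⟩ : ∃ c : ℝ, ∀ e, (d e).2 - c * (d e).1 ≠ 0 := by
    have h1 : ∀ᶠ c in 𝓝[>] (0 : ℝ), ∀ e, (d e).2 - c * (d e).1 ≠ 0 := by
      rw [eventually_all]
      intro e
      by_cases h0 : (d e).1 = 0
      · refine Eventually.of_forall (fun c h => hd e ?_)
        rw [h0, mul_zero, sub_zero] at h
        exact Prod.ext h0 h
      · filter_upwards [lin_ne (A := (d e).2) (neg_ne_zero.2 h0)] with c hc h
        exact hc (by linarith)
    exact h1.exists
  -- large distance
  have hL1 : ∀ᶠ L in atTop, ∀ e, 0 < L * |(d e).2 - c * (d e).1| - 4 * (M * |(d e).2| + M * |(d e).1|) := by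
    rw [eventually_all]
    intro e
    have h0 : 0 < |(d e).2 - c * (d e).1| := abs_pos.2 (hc e)
    have h2 : Tendsto (fun L : ℝ => L * |(d e).2 - c * (d e).1| - 4 * (M * |(d e).2| + M * |(d e).1|))
        atTop atTop := by
      apply tendsto_atTop_add_const_right
      exact tendsto_id.atTop_mul_const h0
    exact h2.eventually_gt_atTop 0
  have hL2 : ∀ᶠ L in atTop, 0 < L * (1 + c ^ 2) - 4 * (M + |c| * M) := by
    have h0 : 0 < 1 + c ^ 2 := by positivity
    have h2 : Tendsto (fun L : ℝ => L * (1 + c ^ 2) - 4 * (M + |c| * M)) atTop atTop := by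
      apply tendsto_atTop_add_const_right
      exact tendsto_id.atTop_mul_const h0
    exact h2.eventually_gt_atTop 0
  obtain ⟨L, ⟨hL1, hL2⟩, hL3⟩ := ((hL1.and hL2).and (eventually_gt_atTop 0)).exists
  set T : Pt := (L, L * c) with hT
  refine ⟨Sum.elim P (fun v => P v + T), ?_⟩
  -- separation of the copies with respect to the witness rays
  have sep : ∀ e, ∀ z z' : Pt, ‖z‖ ≤ M → ‖z'‖ ≤ M → ∀ t : ℝ, z + t • d e ≠ z' + T ∧
      z + T + t • d e ≠ z' := by
    intro e z z' hz hz' t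
    have k1 := coord_le hz
    have k2 := coord_le hz'
    have k3 := hL1 e
    have b1 : |(z.1 - z'.1) * (d e).2| ≤ 2 * M * |(d e).2| := by
      rw [abs_mul]
      apply mul_le_mul_of_nonneg_right _ (abs_nonneg _)
      calc |z.1 - z'.1| ≤ |z.1| + |z'.1| := abs_sub _ _
        _ ≤ 2 * M := by linarith [k1.1, k2.1]
    have b2 : |(z.2 - z'.2) * (d e).1| ≤ 2 * M * |(d e).1| := by
      rw [abs_mul]
      apply mul_le_mul_of_nonneg_right _ (abs_nonneg _)
      calc |z.2 - z'.2| ≤ |z.2| + |z'.2| := abs_sub _ _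
        _ ≤ 2 * M := by linarith [k1.2, k2.2]
    have b3 : |(z.1 - z'.1) * (d e).2 - (z.2 - z'.2) * (d e).1| ≤
        2 * M * |(d e).2| + 2 * M * |(d e).1| := (abs_sub _ _).trans (add_le_add b1 b2)
    have hMn : 0 ≤ M := (norm_nonneg _).trans hz
    have hn1 : 0 ≤ M * |(d e).2| := mul_nonneg hMn (abs_nonneg _)
    have hn2 : 0 ≤ M * |(d e).1| := mul_nonneg hMn (abs_nonneg _)
    constructor
    · intro h
      have e1 := congrArg Prod.fst h
      have e2 := congrArg Prod.snd h
      simp only [hT, Prod.fst_add, Prod.snd_add, Prod.smul_fst, Prod.smul_snd, smul_eq_mul] at e1 e2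
      have e3 : (z.1 - z'.1) * (d e).2 - (z.2 - z'.2) * (d e).1 =
          L * ((d e).2 - c * (d e).1) := by
        linear_combination (d e).2 * e1 - (d e).1 * e2
      rw [e3, abs_mul, abs_of_pos hL3] at b3
      linarith
    · intro h
      have e1 := congrArg Prod.fst h
      have e2 := congrArg Prod.snd h
      simp only [hT, Prod.fst_add, Prod.snd_add, Prod.smul_fst, Prod.smul_snd, smul_eq_mul] at e1 e2
      have e3 : (z.1 - z'.1) * (d e).2 - (z.2 - z'.2) * (d e).1 =
          -(L * ((d e).2 - c * (d e).1)) := by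
        linear_combination (d e).2 * e1 - (d e).1 * e2
      rw [e3, abs_neg, abs_mul, abs_of_pos hL3] at b3
      linarith
  -- pairs in different copies
  have mid : ∀ u v : V, ∃ w ∈ segment ℝ (P u) (P v + T), ∃ d : Pt, d ≠ 0 ∧ ∀ t : ℝ, 0 ≤ t →
      ∀ z : Pt, ‖z‖ ≤ M → w + t • d ≠ z ∧ w + t • d ≠ z + T := by
    intro u v
    refine ⟨(1 / 2 : ℝ) • P u + (1 / 2 : ℝ) • (P v + T), ⟨1 / 2, 1 / 2, by norm_num, by norm_num,
      by norm_num, rfl⟩, (-c, 1), ?_, ?_⟩
    · intro h
      have := congrArg Prod.snd h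
      simp at this
    · intro t _ z hz
      have k1 := coord_le (hM u)
      have k2 := coord_le (hM v)
      have k3 := coord_le hz
      have bd : ∀ y : Pt, |y.1| ≤ M → |y.2| ≤ M → |y.1 + c * y.2| ≤ M + |c| * M := by
        intro y h1 h2
        calc |y.1 + c * y.2| ≤ |y.1| + |c * y.2| := abs_add_le _ _
          _ = |y.1| + |c| * |y.2| := by rw [abs_mul]
          _ ≤ M + |c| * M := add_le_add h1 (mul_le_mul_of_nonneg_left h2 (abs_nonneg _))
      have b1 := abs_le.1 (bd (P u) k1.1 k1.2)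
      have b2 := abs_le.1 (bd (P v) k2.1 k2.2)
      have b3 := abs_le.1 (bd z k3.1 k3.2)
      constructor
      · intro h
        have e1 := congrArg Prod.fst h
        have e2 := congrArg Prod.snd h
        simp only [hT, Prod.fst_add, Prod.snd_add, Prod.smul_fst, Prod.smul_snd,
          smul_eq_mul] at e1 e2
        have e3 : z.1 + c * z.2 = 1 / 2 * ((P u).1 + c * (P u).2) +
            1 / 2 * ((P v).1 + c * (P v).2) + 1 / 2 * (L * (1 + c ^ 2)) := by
          linear_combination -e1 - c * e2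
        linarith
      · intro h
        have e1 := congrArg Prod.fst h
        have e2 := congrArg Prod.snd h
        simp only [hT, Prod.fst_add, Prod.snd_add, Prod.smul_fst, Prod.smul_snd,
          smul_eq_mul] at e1 e2
        have e3 : z.1 + c * z.2 = 1 / 2 * ((P u).1 + c * (P u).2) +
            1 / 2 * ((P v).1 + c * (P v).2) - 1 / 2 * (L * (1 + c ^ 2)) := by
          linear_combination -e1 - c * e2
        linarith
  -- segments in the second copy
  have seg2 : ∀ x y z, z ∈ segment ℝ (P x + T) (P y + T) →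
      ∃ z' ∈ segment ℝ (P x) (P y), z = z' + T := by
    rintro x y z ⟨a, b, ha, hb, hab, rfl⟩
    refine ⟨a • P x + b • P y, ⟨a, b, ha, hb, hab, rfl⟩, ?_⟩
    have : T = a • T + b • T := by rw [← add_smul, hab, one_smul]
    conv_rhs => rw [this]
    module
  have addseg : ∀ x y z, z ∈ segment ℝ (P x) (P y) → z + T ∈ segment ℝ (P x + T) (P y + T) := by
    rintro x y z ⟨a, b, ha, hb, hab, rfl⟩
    refine ⟨a, b, ha, hb, hab, ?_⟩
    have : T = a • T + b • T := by rw [← add_smul, hab, one_smul]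
    conv_rhs => rw [this]
    module
  rintro (u | u) (v | v) huv hadj
  · have huv' : u ≠ v := fun h => huv (by rw [h])
    have hadj' : ¬ G.Adj u v := fun h => hadj (by simpa using h)
    set e : {e : V × V // e.1 ≠ e.2 ∧ ¬ G.Adj e.1 e.2} := ⟨(u, v), huv', hadj'⟩ with he
    refine ⟨w e, hwm e, d e, hd e, ?_⟩
    rintro t ht (x | x) (y | y) hxy hz
    · exact hray e t ht x y (by simpa using hxy) hz
    · simp at hxy
    · simp at hxy
    · simp only [Sum.elim_inr] at hz
      obtain ⟨z', hz', h⟩ := seg2 x y _ hz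
      exact (sep e (w e) z' (seg_bound (hM _) (hM _) (hwm e)) (seg_bound (hM _) (hM _) hz') t).1 h
  · obtain ⟨w', hw', d', hd', h⟩ := mid u v
    refine ⟨w', hw', d', hd', ?_⟩
    rintro t ht (x | x) (y | y) hxy hz
    · simp only [Sum.elim_inl] at hz
      exact (h t ht _ (seg_bound (hM _) (hM _) hz)).1 rfl
    · simp at hxy
    · simp at hxy
    · simp only [Sum.elim_inr] at hz
      obtain ⟨z', hz', h2⟩ := seg2 x y _ hz
      exact (h t ht _ (seg_bound (hM _) (hM _) hz')).2 h2
  · obtain ⟨w', hw', d', hd', h⟩ := mid v u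
    refine ⟨w', by rw [segment_symm]; exact hw', d', hd', ?_⟩
    rintro t ht (x | x) (y | y) hxy hz
    · simp only [Sum.elim_inl] at hz
      exact (h t ht _ (seg_bound (hM _) (hM _) hz)).1 rfl
    · simp at hxy
    · simp at hxy
    · simp only [Sum.elim_inr] at hz
      obtain ⟨z', hz', h2⟩ := seg2 x y _ hz
      exact (h t ht _ (seg_bound (hM _) (hM _) hz')).2 h2
  · have huv' : u ≠ v := fun h => huv (by rw [h])
    have hadj' : ¬ G.Adj u v := fun h => hadj (by simpa using h)
    set e : {e : V × V // e.1 ≠ e.2 ∧ ¬ G.Adj e.1 e.2} := ⟨(u, v), huv', hadj'⟩ with he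
    refine ⟨w e + T, addseg _ _ _ (hwm e), d e, hd e, ?_⟩
    rintro t ht (x | x) (y | y) hxy hz
    · simp only [Sum.elim_inl] at hz
      exact (sep e (w e) _ (seg_bound (hM _) (hM _) (hwm e)) (seg_bound (hM _) (hM _) hz) t).2 rfl
    · simp at hxy
    · simp at hxy
    · simp only [Sum.elim_inr] at hz
      obtain ⟨z', hz', h⟩ := seg2 x y _ hz
      refine hray e t ht x y (by simpa using hxy) ?_
      have h2 : w e + t • d e = z' := by
        have : w e + T + t • d e = w e + t • d e + T := by abel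
        rw [this] at h
        exact add_right_cancel h
      rw [h2]
      exact hz'

/-! ## Realization by an obstacle -/

/-- the vertices of a polygon with two different points are distinct -/
theorem inj_of_polygon {n : ℕ} (hn : 3 ≤ n) (v : ZMod n → Pt)
    (h1 : ∀ i, segment ℝ (v i) (v (i + 1)) ∩ segment ℝ (v (i + 1)) (v (i + 2)) = {v (i + 1)})
    (h2 : ∀ i j, i ≠ j → j ≠ i + 1 → i ≠ j + 1 →
      Disjoint (segment ℝ (v i) (v (i + 1))) (segment ℝ (v j) (v (j + 1))))
    {a b : Pt} (hab : a ≠ b) (ha : a ∈ ⋃ i, segment ℝ (v i) (v (i + 1)))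
    (hb : b ∈ ⋃ i, segment ℝ (v i) (v (i + 1))) : Function.Injective v := by
  have z0 : ∀ k : ℕ, 0 < k → k < n → (k : ZMod n) ≠ 0 := by
    intro k hk hkn h
    rw [ZMod.natCast_eq_zero_iff] at h
    exact absurd (Nat.le_of_dvd hk h) (by omega)
  -- neighbours
  have key : ∀ i, v i ≠ v (i + 1) := by
    intro i hi
    rcases eq_or_lt_of_le hn with rfl | hk
    · -- triangle
      have e3 : i + 1 + 2 = i := by
        have : (1 : ZMod 3) + 2 = 0 := by decide
        rw [add_assoc, this, add_zero]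
      have e2 : i + 1 + 1 = i + 2 := by
        have : (1 : ZMod 3) + 1 = 2 := by decide
        rw [add_assoc, this]
      have h3 := h1 (i + 1)
      rw [e3, e2, hi] at h3
      have h4 : v (i + 1) ∈ ({v (i + 2)} : Set Pt) := by
        rw [← h3]
        exact ⟨left_mem_segment ℝ _ _, right_mem_segment ℝ _ _⟩
      rw [Set.mem_singleton_iff] at h4
      have h5 : ∀ i j : ZMod 3, j = i ∨ j = i + 1 ∨ j = i + 2 := by decide
      have hall : ∀ j, v j = v i := by
        intro j
        rcases h5 i j with rfl | rfl | rfl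
        · rfl
        · exact hi.symm
        · rw [← h4, hi]
      have hs : ∀ x ∈ ⋃ i, segment ℝ (v i) (v (i + 1)), x = v i := by
        intro x hx
        rw [Set.mem_iUnion] at hx
        obtain ⟨j, hx⟩ := hx
        rw [hall j, hall (j + 1), segment_same] at hx
        exact hx
      exact hab ((hs a ha).trans (hs b hb).symm)
    · -- at least four vertices
      have e1 : (i - 1) + 1 = i := sub_add_cancel i 1
      have n1 : i - 1 ≠ i + 1 := by
        intro h
        refine z0 2 (by omega) (by omega) ?_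
        push_cast
        linear_combination -h
      have n2 : i + 1 ≠ i - 1 + 1 := by
        intro h
        refine z0 1 (by omega) (by omega) ?_
        push_cast
        linear_combination h
      have n3 : i - 1 ≠ i + 1 + 1 := by
        intro h
        refine z0 3 (by omega) (by omega) ?_
        push_cast
        linear_combination -h
      have hd := h2 (i - 1) (i + 1) n1 n2 n3
      rw [e1] at hd
      refine Set.disjoint_left.1 hd (right_mem_segment ℝ _ _) ?_
      rw [hi]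
      exact left_mem_segment ℝ _ _
  intro i j hij
  by_contra hne
  by_cases ha1 : j = i + 1
  · exact key i (by rw [← ha1]; exact hij)
  by_cases ha2 : i = j + 1
  · exact key j (by rw [← ha2]; exact hij.symm)
  refine Set.disjoint_left.1 (h2 i j hne ha1 ha2) (left_mem_segment ℝ _ _) ?_
  rw [hij]
  exact left_mem_segment ℝ _ _

/-- a region bounded by a polygon is an obstacle -/
theorem isObstacle_of_reg {C : Set Pt} (hC : Helper82_Obs.Reg C) : IsObstacle C := by
  obtain ⟨n, p, hn, h1, h2, h3⟩ := hC.poly.isSimplePolygon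
  -- two points of the frontier
  have htwo : ∃ a ∈ frontier C, ∃ b ∈ frontier C, a ≠ b := by
    obtain ⟨A, a, b, hA, -, hS⟩ := hC.poly
    refine ⟨a, ?_, b, ?_, hA.ne⟩
    · rw [hS]
      exact Or.inl hA.left_mem
    · rw [hS]
      exact Or.inl hA.right_mem
  obtain ⟨a, ha, b, hb, hab⟩ := htwo
  have hinj : Function.Injective p :=
    inj_of_polygon hn p h1 h2 hab (by rw [h3] at ha; exact ha) (by rw [h3] at hb; exact hb)
  refine ⟨hC.isOpen, hC.conn, n, p, hn, ?_⟩
  first
    | exact ⟨hinj, h1, h2, h3⟩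
    | exact ⟨h1, h2, h3⟩

theorem real : RealStmt := by
  intro V _ G P hiso hP hgp
  set ι := {e : V × V // e.1 ≠ e.2 ∧ ¬ G.Adj e.1 e.2} with hι
  have hw : ∀ e : ι, Wit G P e.1.1 e.1.2 := fun e => hP _ _ e.2.1 e.2.2
  choose w hwm d hd hray using hw
  obtain ⟨C, hC, hdis, hmeet⟩ := Helper82_Obs.exists_region (isCompact_edges G P)
    (fun e : ι => P e.1.1) (fun e : ι => P e.1.2) w d (fun e h => e.2.1 (hgp.1 h)) hd hwm
    (fun e t ht ⟨x, y, hxy, hz⟩ => hray e t ht x y hxy hz)
  have hout : ∀ z ∈ edges G P, z ∉ C := fun z hz h =>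
    Set.disjoint_left.1 hdis (subset_closure h) hz
  refine ⟨C, isObstacle_of_reg hC, P, hgp, ?_, ?_⟩
  · intro v
    obtain ⟨u, hu⟩ := hiso v
    exact hout _ ⟨v, u, hu, left_mem_segment ℝ _ _⟩
  · intro u v huv
    constructor
    · intro h
      rw [Set.eq_empty_iff_forall_notMem]
      rintro z ⟨hz, hzC⟩
      exact hout z ⟨u, v, h, hz⟩ hzC
    · intro h
      by_contra hadj
      obtain ⟨z, hz⟩ := hmeet ⟨(u, v), huv, hadj⟩
      rw [Set.eq_empty_iff_forall_notMem] at h
      exact h z hz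

theorem double : DoubleStmt := by
  intro V _ _ G P hiso hP
  obtain ⟨P1, hP1⟩ := sum V G P hP
  obtain ⟨ε, hε, hst⟩ := stab (V ⊕ V) (G ⊕g G) P1 hP1
  obtain ⟨P2, h1, h2⟩ := gen (V ⊕ V) P1 ε hε
  refine real (V ⊕ V) (G ⊕g G) P2 ?_ (hst P2 h1) h2
  rintro (u | u)
  · obtain ⟨v, hv⟩ := hiso u
    exact ⟨Sum.inl v, by simpa using hv⟩
  · obtain ⟨v, hv⟩ := hiso u
    exact ⟨Sum.inr v, by simpa using hv⟩

end Pool.Agent.SO.H82
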